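import Mathlib
import Pool.Agent.Lib.MP_f3871b_nt.Table

/-! Sign analysis of the solution of the recurrence. -/

namespace Pool.Agent.Lib.MP_f3871b_nt

open Finset

theorem sumAux_eq (N : ℕ) : ∀ (f : ℕ) (l : List ℤ) (d : ℕ), f ≤ l.length →
    sumAux N l d f = ∑ i ∈ range f,
      if N % (d + i) = 0 then ((d + i : ℕ) : ℤ) * ((-l.getD i 0) ^ (N / (d + i)) + 1) else 0
  | 0, l, d, _ => by cases l <;> simp [sumAux]
  | f + 1, [], d, h => by simp at h
  | f + 1, a :: l, d, h => by
    have ih := sumAux_eq N f l (d + 1) (by simpa using h)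
    rw [sum_range_succ', sumAux]
    have e : ∑ i ∈ range f, (if N % (d + (i + 1)) = 0 then ((d + (i + 1) : ℕ) : ℤ) *
        ((-(a :: l).getD (i + 1) 0) ^ (N / (d + (i + 1))) + 1) else 0) = sumAux N l (d + 1) f := by
      rw [ih]
      apply sum_congr rfl
      intro i _
      rw [show d + (i + 1) = d + 1 + i by ring, List.getD_cons_succ]
    rw [e, List.getD_cons_zero, add_zero]
    split
    · rename_i h0
      have h1 : N % d = 0 := h0
      rw [if_pos h1, add_comm]
    · rename_i k h0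
      have h1 : ¬ N % d = 0 := by
        have : N % d = k + 1 := h0
        omega
      rw [if_neg h1, add_zero]

theorem checkAll_spec : ∀ (l : List ℤ) (N : ℕ), checkAll l N = true →
    ∀ i < l.length, checkOne (l.getD i 0) (N + i) = true
  | [], _, _, i, hi => by simp at hi
  | a :: l, N, h, i, hi => by
    rw [checkAll, Bool.and_eq_true] at h
    cases i with
    | zero => simpa using h.1
    | succ i =>
      have := checkAll_spec l (N + 1) h.2 i (by simpa using hi)
      rw [List.getD_cons_succ, show N + (i + 1) = N + 1 + i by ring]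
      exact this

theorem checkOne_tab (N : ℕ) (h1 : 1 ≤ N) (h2 : N ≤ 1000) :
    checkOne (tab.getD (N - 1) 0) N = true := by
  have := checkAll_spec tab 1 checkAll_ok (N - 1) (by rw [tab_length]; omega)
  rwa [show 1 + (N - 1) = N by omega] at this

variable {n : ℕ → ℤ}

theorem rec_proper (hR : ∀ N : ℕ, ∑ d ∈ N.divisors, (d : ℤ) * ((-n d) ^ (N / d) + 1) = 0)
    (N : ℕ) (hN : N ≠ 0) :
    ∑ d ∈ N.properDivisors, (d : ℤ) * ((-n d) ^ (N / d) + 1) + N * (-n N + 1) = 0 := by
  have := hR N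
  rw [← Nat.cons_self_properDivisors hN, sum_cons, Nat.div_self (Nat.pos_of_ne_zero hN), pow_one,
    add_comm] at this
  exact this

theorem odd_eq_one (hR : ∀ N : ℕ, ∑ d ∈ N.divisors, (d : ℤ) * ((-n d) ^ (N / d) + 1) = 0)
    (N : ℕ) (hN : Odd N) : n N = 1 := by
  induction N using Nat.strong_induction_on with
  | _ N ih =>
    have hN0 : N ≠ 0 := by rintro rfl; simp at hN
    have h := rec_proper hR N hN0
    rw [sum_eq_zero, zero_add, mul_eq_zero] at h
    · rcases h with h | h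
      · exact absurd (by exact_mod_cast h) hN0
      · linarith
    · intro d hd
      obtain ⟨hd1, hd2⟩ := Nat.mem_properDivisors.mp hd
      rw [ih d hd2 (hN.of_dvd_nat hd1), (hN.of_dvd_nat (Nat.div_dvd_of_dvd hd1)).neg_one_pow]
      simp

theorem eq_tab (hR : ∀ N : ℕ, ∑ d ∈ N.divisors, (d : ℤ) * ((-n d) ^ (N / d) + 1) = 0)
    (N : ℕ) (h1 : 1 ≤ N) (h2 : N ≤ 1000) : n N = tab.getD (N - 1) 0 := by
  induction N using Nat.strong_induction_on with
  | _ N ih =>
    have hc := checkOne_tab N h1 h2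
    unfold checkOne at hc
    split_ifs at hc with hodd
    · rw [odd_eq_one hR N (Nat.odd_iff.mpr hodd)]
      simpa using (of_decide_eq_true hc).symm
    all_goals
      simp only [Bool.and_eq_true, decide_eq_true_eq] at hc
      have hc1 := hc.1.1.1
      have h := rec_proper hR N (by omega)
      rw [sumAux_eq N _ _ _ (by rw [tab_length]; omega)] at hc1
      have key : ∑ d ∈ N.properDivisors, (d : ℤ) * ((-n d) ^ (N / d) + 1) =
          ∑ i ∈ range (N / 2), if N % (1 + i) = 0 then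
            ((1 + i : ℕ) : ℤ) * ((-tab.getD i 0) ^ (N / (1 + i)) + 1) else 0 := by
        apply sum_of_injOn (fun d => d - 1)
        · intro x hx y hy hxy
          have hx' := Nat.pos_of_mem_properDivisors (mem_coe.mp hx)
          have hy' := Nat.pos_of_mem_properDivisors (mem_coe.mp hy)
          simp only at hxy
          omega
        · intro d hd
          have h3 := Nat.pos_of_mem_properDivisors hd
          obtain ⟨⟨q, hq⟩, h5⟩ := Nat.mem_properDivisors.mp hd
          rw [mem_coe, mem_range]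
          show d - 1 < N / 2
          have hq2 : 2 ≤ q := by
            rcases q with _ | _ | q
            · omega
            · omega
            · omega
          have : d * 2 ≤ d * q := Nat.mul_le_mul_left d hq2
          omega
        · intro i hi hi'
          rw [if_neg]
          intro h0
          apply hi'
          refine ⟨1 + i, ?_, by simp⟩
          rw [mem_coe, Nat.mem_properDivisors]
          exact ⟨Nat.dvd_of_mod_eq_zero h0, by have := mem_range.mp hi; omega⟩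
        · intro d hd
          have h3 := Nat.pos_of_mem_properDivisors hd
          obtain ⟨h4, h5⟩ := Nat.mem_properDivisors.mp hd
          have h6 : 1 + (d - 1) = d := by omega
          simp only [h6]
          rw [if_pos (Nat.mod_eq_zero_of_dvd h4), ih d h5 h3 (by omega)]
      rw [key] at h
      have h7 : (N : ℤ) * (-n N + 1) = N * (-tab.getD (N - 1) 0 + 1) := by linarith
      have h8 : (N : ℤ) ≠ 0 := by exact_mod_cast (by omega : N ≠ 0)
      have := mul_left_cancel₀ h8 h7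
      linarith

theorem tab_facts (hR : ∀ N : ℕ, ∑ d ∈ N.divisors, (d : ℤ) * ((-n d) ^ (N / d) + 1) = 0)
    (e : ℕ) (h1 : 1 ≤ e) (h2 : e ≤ 500) :
    (3 ≤ e → e ≤ 128 → |(n (2 * e) : ℝ)| ≤ (1222 / 625) ^ e) ∧
    (128 < e → 2 * e * |(n (2 * e) : ℝ)| ≤ 8 * 2 ^ e) ∧
    (4 ≤ e → e % 4 = 0 → 0 < n (2 * e)) ∧ (4 ≤ e → e % 4 ≠ 0 → n (2 * e) < 0) := by
  have hc := checkOne_tab (2 * e) (by omega) (by omega)
  rw [← eq_tab hR (2 * e) (by omega) (by omega)] at hc
  unfold checkOne at hc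
  rw [if_neg (by omega), show 2 * e / 2 = e by omega] at hc
  simp only [Bool.and_eq_true, Bool.or_eq_true, decide_eq_true_eq] at hc
  obtain ⟨⟨⟨-, hc2⟩, hc3⟩, hc4⟩ := hc
  refine ⟨fun h3 h4 => ?_, fun h3 => ?_, fun h3 h4 => ?_, fun h3 h4 => ?_⟩
  · have h5 : (n (2 * e)).natAbs * 625 ^ e ≤ 1222 ^ e := by
      rcases hc2 with (h | h) | h
      · omega
      · omega
      · exact h
    have h6 : (((n (2 * e)).natAbs : ℕ) : ℝ) * 625 ^ e ≤ 1222 ^ e := by exact_mod_cast h5
    rw [Nat.cast_natAbs, Int.cast_abs] at h6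
    rw [div_pow, le_div_iff₀ (by positivity)]
    exact h6
  · have h5 : 2 * e * (n (2 * e)).natAbs ≤ 8 * 2 ^ e := by
      rcases hc3 with h | h
      · omega
      · exact h
    have h6 : 2 * (e : ℝ) * (((n (2 * e)).natAbs : ℕ) : ℝ) ≤ 8 * 2 ^ e := by exact_mod_cast h5
    rwa [Nat.cast_natAbs, Int.cast_abs] at h6
  · rcases hc4 with h | h
    · omega
    · rw [if_pos (by omega)] at h
      simpa using h
  · rcases hc4 with h | h
    · omega
    · rw [if_neg (by omega)] at h
      simpa using h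

theorem n_two (hR : ∀ N : ℕ, ∑ d ∈ N.divisors, (d : ℤ) * ((-n d) ^ (N / d) + 1) = 0) :
    n 2 = 2 := by rw [eq_tab hR 2 (by norm_num) (by norm_num)]; exact tab_two

theorem n_four (hR : ∀ N : ℕ, ∑ d ∈ N.divisors, (d : ℤ) * ((-n d) ^ (N / d) + 1) = 0) :
    n 4 = 4 := by rw [eq_tab hR 4 (by norm_num) (by norm_num)]; exact tab_four

theorem sq_le_two_pow (M : ℕ) (hM : 500 ≤ M) : 120 * M ^ 2 ≤ 2 ^ M := by
  induction M, hM using Nat.le_induction with
  | base => decide +kernel
  | succ M hM ih => rw [pow_succ 2 M]; nlinarith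

theorem pow_small : ((611 : ℝ) / 625) ^ 500 ≤ 2 / 5 / 32896 := by
  have h1 : ((611 : ℝ) / 625) ^ 100 ≤ 1038 / 10000 := by norm_num
  have h2 : ((611 : ℝ) / 625) ^ 500 = (((611 : ℝ) / 625) ^ 100) ^ 5 := by rw [← pow_mul]
  rw [h2]
  exact (pow_le_pow_left₀ (by positivity) h1 5).trans (by norm_num)

theorem geom_bound (K : ℕ) : ∑ q ∈ Ico 2 K, (8 : ℝ) * (1 / 32) ^ (q - 1) ≤ 8 / 31 := by
  have h : ∀ K : ℕ, ∑ q ∈ Ico 2 (K + 2), (8 : ℝ) * (1 / 32) ^ (q - 1) =
      8 / 31 * (1 - (1 / 32) ^ K) := by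
    intro K
    induction K with
    | zero => simp
    | succ K ih =>
      rw [show K + 1 + 2 = (K + 2) + 1 by ring, sum_Ico_succ_top (by omega), ih,
        show K + 2 - 1 = K + 1 by omega]
      ring
  rcases Nat.lt_or_ge K 2 with hK | hK
  · rw [Ico_eq_empty (by omega)]; norm_num
  · obtain ⟨K, rfl⟩ := Nat.exists_eq_add_of_le' hK
    rw [h]
    have : (0 : ℝ) ≤ (1 / 32) ^ K := by positivity
    linarith

theorem term_bound (hR : ∀ N : ℕ, ∑ d ∈ N.divisors, (d : ℤ) * ((-n d) ^ (N / d) + 1) = 0)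
    (M : ℕ) (ih : ∀ e < M, 128 < e → 2 * e * |(n (2 * e) : ℝ)| ≤ 8 * 2 ^ e)
    (d : ℕ) (hd : d ∈ (2 * M).properDivisors) :
    |(d : ℝ) * ((-(n d : ℝ)) ^ (2 * M / d) + 1) -
        (if d = 2 ∨ d = 4 then (d : ℝ) * (-(n d : ℝ)) ^ (2 * M / d) else 0)| ≤
      2 * d + (if d ≤ 256 then (d : ℝ) * (1222 / 625) ^ M else 0) +
        8 * (1 / 32) ^ (2 * M / d - 1) * 2 ^ M := by
  have h3 := Nat.pos_of_mem_properDivisors hd
  obtain ⟨⟨q, hq⟩, h5⟩ := Nat.mem_properDivisors.mp hd
  have hq' : 2 * M / d = q := by rw [hq, Nat.mul_div_cancel_left _ h3]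
  rw [hq']
  have hA : (0 : ℝ) ≤ (if d ≤ 256 then (d : ℝ) * (1222 / 625) ^ M else 0) := by
    split_ifs <;> positivity
  have hB : (0 : ℝ) ≤ 8 * (1 / 32) ^ (q - 1) * 2 ^ M := by positivity
  have hd0 : (0 : ℝ) ≤ d := Nat.cast_nonneg d
  rcases Nat.even_or_odd d with he | ho
  · obtain ⟨e, rfl⟩ := even_iff_exists_two_mul.mp he
    have hM : M = e * q := by
      have : 2 * M = 2 * (e * q) := by rw [hq]; ring
      omega
    by_cases h24 : 2 * e = 2 ∨ 2 * e = 4
    · rw [if_pos h24, mul_add, add_sub_cancel_left, mul_one, abs_of_nonneg hd0]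
      linarith
    rw [if_neg h24, sub_zero]
    have habs : |((2 * e : ℕ) : ℝ) * ((-(n (2 * e) : ℝ)) ^ q + 1)| ≤
        ((2 * e : ℕ) : ℝ) * |(n (2 * e) : ℝ)| ^ q + ((2 * e : ℕ) : ℝ) := by
      rw [abs_mul, abs_of_nonneg hd0, ← mul_add_one]
      apply mul_le_mul_of_nonneg_left _ hd0
      refine (abs_add_le _ _).trans ?_
      rw [abs_pow, abs_neg, abs_one]
    refine habs.trans ?_
    by_cases h256 : 2 * e ≤ 256
    · rw [if_pos h256]
      have h6 := (tab_facts hR e (by omega) (by omega)).1 (by omega) (by omega)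
      have h7 : |(n (2 * e) : ℝ)| ^ q ≤ (1222 / 625) ^ M := by
        rw [hM, pow_mul]
        exact pow_le_pow_left₀ (abs_nonneg _) h6 q
      have := mul_le_mul_of_nonneg_left h7 hd0
      linarith
    · rw [if_neg h256]
      have h6 := ih e (by omega) (by omega)
      have he : (128 : ℝ) ≤ e := by exact_mod_cast (by omega : 128 ≤ e)
      have h7 : |(n (2 * e) : ℝ)| ≤ 1 / 32 * 2 ^ e := by
        have := abs_nonneg (n (2 * e) : ℝ)
        nlinarith
      have hq1 : 1 ≤ q := by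
        rcases q with _ | q
        · omega
        · omega
      obtain ⟨p, rfl⟩ := Nat.exists_eq_add_of_le' hq1
      have h8 : |(n (2 * e) : ℝ)| ^ p ≤ (1 / 32 * 2 ^ e) ^ p :=
        pow_le_pow_left₀ (abs_nonneg _) h7 p
      have h9 : ((2 * e : ℕ) : ℝ) * |(n (2 * e) : ℝ)| ^ (p + 1) ≤
          8 * (1 / 32) ^ (p + 1 - 1) * 2 ^ M := by
        rw [Nat.add_sub_cancel, hM, pow_mul, pow_succ, pow_succ]
        push_cast
        calc 2 * (e : ℝ) * (|(n (2 * e) : ℝ)| ^ p * |(n (2 * e) : ℝ)|)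
            = (2 * (e : ℝ) * |(n (2 * e) : ℝ)|) * |(n (2 * e) : ℝ)| ^ p := by ring
          _ ≤ (8 * 2 ^ e) * (1 / 32 * 2 ^ e) ^ p :=
            mul_le_mul h6 h8 (by positivity) (by positivity)
          _ = 8 * (1 / 32) ^ p * ((2 ^ e) ^ p * 2 ^ e) := by rw [mul_pow]; ring
      linarith
  · have hqe : Even q := by
      have : Even (d * q) := by rw [← hq]; exact even_two_mul M
      rcases Nat.even_mul.mp this with h | h
      · exact absurd h (Nat.not_even_iff_odd.mpr ho)
      · exact h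
    have h24 : ¬ (d = 2 ∨ d = 4) := by
      rintro (rfl | rfl) <;> revert ho <;> decide
    rw [if_neg h24, sub_zero, odd_eq_one hR d ho, Int.cast_one, hqe.neg_one_pow,
      abs_of_nonneg (by positivity)]
    linarith

theorem main_est (hR : ∀ N : ℕ, ∑ d ∈ N.divisors, (d : ℤ) * ((-n d) ^ (N / d) + 1) = 0)
    (M : ℕ) (hM : 500 ≤ M) (ih : ∀ e < M, 128 < e → 2 * e * |(n (2 * e) : ℝ)| ≤ 8 * 2 ^ e) :
    |2 * (M : ℝ) * n (2 * M) -
      (2 * (-2) ^ M + if 2 ∣ M then 4 * (-4) ^ (M / 2) else 0)| ≤ 2 ^ M := by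
  have h0 := rec_proper hR (2 * M) (by omega)
  have h1 : ∑ d ∈ (2 * M).properDivisors, (d : ℝ) * ((-(n d : ℝ)) ^ (2 * M / d) + 1) +
      2 * M * (-(n (2 * M) : ℝ) + 1) = 0 := by exact_mod_cast h0
  have h2 : ∑ d ∈ (2 * M).properDivisors,
      (if d = 2 ∨ d = 4 then (d : ℝ) * (-(n d : ℝ)) ^ (2 * M / d) else 0) =
      2 * (-2) ^ M + if 2 ∣ M then 4 * (-4) ^ (M / 2) else 0 := by
    have e1 : ∀ d : ℕ, (if d = 2 ∨ d = 4 then (d : ℝ) * (-(n d : ℝ)) ^ (2 * M / d) else 0) =
        (if d = 2 then (2 : ℝ) * (-2) ^ M else 0) +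
          (if d = 4 then (4 : ℝ) * (-4) ^ (M / 2) else 0) := by
      intro d
      by_cases h2 : d = 2
      · subst h2
        simp [n_two hR]
      by_cases h4 : d = 4
      · subst h4
        simp [n_four hR, show 2 * M / 4 = M / 2 by omega]
      simp [h2, h4]
    simp only [e1]
    rw [sum_add_distrib, sum_ite_eq', sum_ite_eq', if_pos]
    · congr 1
      have : 4 ∈ (2 * M).properDivisors ↔ 2 ∣ M := by
        rw [Nat.mem_properDivisors]
        omega
      simp only [this]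
    · rw [Nat.mem_properDivisors]
      omega
  have h3 : 2 * (M : ℝ) * n (2 * M) - (2 * (-2) ^ M + if 2 ∣ M then 4 * (-4) ^ (M / 2) else 0) =
      ∑ d ∈ (2 * M).properDivisors, ((d : ℝ) * ((-(n d : ℝ)) ^ (2 * M / d) + 1) -
        (if d = 2 ∨ d = 4 then (d : ℝ) * (-(n d : ℝ)) ^ (2 * M / d) else 0)) + 2 * M := by
    rw [sum_sub_distrib, h2]
    linarith
  rw [h3]
  have h4 := (abs_sum_le_sum_abs _ _).trans (sum_le_sum (term_bound hR M ih))
  rw [sum_add_distrib, sum_add_distrib] at h4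
  have hM0 : (500 : ℝ) ≤ M := by exact_mod_cast hM
  have hP : (0 : ℝ) < 2 ^ M := by positivity
  have b1 : ∑ d ∈ (2 * M).properDivisors, 2 * (d : ℝ) ≤ 8 * M ^ 2 := by
    have hsub : (2 * M).properDivisors ⊆ range (2 * M) := fun d hd =>
      mem_range.mpr (Nat.mem_properDivisors.mp hd).2
    calc ∑ d ∈ (2 * M).properDivisors, 2 * (d : ℝ) ≤ ∑ d ∈ range (2 * M), 2 * (d : ℝ) :=
          sum_le_sum_of_subset_of_nonneg hsub (fun _ _ _ => by positivity)
      _ ≤ ∑ d ∈ range (2 * M), 2 * (2 * M : ℝ) := by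
          apply sum_le_sum
          intro d hd
          have : (d : ℝ) ≤ 2 * M := by exact_mod_cast (mem_range.mp hd).le
          linarith
      _ = 8 * M ^ 2 := by
          rw [sum_const, card_range, nsmul_eq_mul]; push_cast; ring
  have b2 : ∑ d ∈ (2 * M).properDivisors, (if d ≤ 256 then (d : ℝ) * (1222 / 625) ^ M else 0) ≤
      2 / 5 * 2 ^ M := by
    rw [← sum_filter]
    have hsub : (2 * M).properDivisors.filter (· ≤ 256) ⊆ range 257 := fun d hd =>
      mem_range.mpr (by have := (mem_filter.mp hd).2; omega)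
    have hs : ∑ d ∈ range 257, (d : ℝ) = 32896 := by
      have : ∑ d ∈ range 257, d = 32896 := by decide +kernel
      rw [← Nat.cast_sum, this]
      norm_num
    have hp : ((611 : ℝ) / 625) ^ M ≤ (611 / 625) ^ 500 :=
      pow_le_pow_of_le_one (by norm_num) (by norm_num) hM
    have hp2 := pow_small
    calc ∑ d ∈ (2 * M).properDivisors.filter (· ≤ 256), (d : ℝ) * (1222 / 625) ^ M
        ≤ ∑ d ∈ range 257, (d : ℝ) * (1222 / 625) ^ M :=
          sum_le_sum_of_subset_of_nonneg hsub (fun _ _ _ => by positivity)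
      _ = 32896 * (611 / 625) ^ M * 2 ^ M := by
          rw [← sum_mul, hs, mul_assoc, ← mul_pow]; norm_num
      _ ≤ 32896 * (2 / 5 / 32896) * 2 ^ M := by gcongr; exact hp.trans hp2
      _ = 2 / 5 * 2 ^ M := by norm_num
  have b3 : ∑ d ∈ (2 * M).properDivisors, (8 : ℝ) * (1 / 32) ^ (2 * M / d - 1) * 2 ^ M ≤
      8 / 31 * 2 ^ M := by
    rw [← sum_mul]
    apply mul_le_mul_of_nonneg_right _ hP.le
    refine le_trans ?_ (geom_bound (2 * M + 1))
    rw [← sum_image (s := (2 * M).properDivisors) (g := fun d => 2 * M / d)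
      (f := fun q => (8 : ℝ) * (1 / 32) ^ (q - 1))]
    · apply sum_le_sum_of_subset_of_nonneg _ (fun _ _ _ => by positivity)
      intro q hq
      obtain ⟨d, hd, rfl⟩ := mem_image.mp hq
      rw [mem_Ico]
      exact ⟨Nat.one_lt_div_of_mem_properDivisors hd, Nat.lt_succ_of_le (Nat.div_le_self _ _)⟩
    · intro x hx y hy hxy
      have hx' := (Nat.mem_properDivisors.mp (mem_coe.mp hx)).1
      have hy' := (Nat.mem_properDivisors.mp (mem_coe.mp hy)).1
      simp only at hxy
      rw [← Nat.div_div_self hx' (by omega), hxy, Nat.div_div_self hy' (by omega)]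
  have b4 : 120 * (M : ℝ) ^ 2 ≤ 2 ^ M := by exact_mod_cast sq_le_two_pow M hM
  refine (abs_add_le _ _).trans ?_
  rw [abs_of_nonneg (by positivity : (0 : ℝ) ≤ 2 * M)]
  nlinarith

theorem main_value (M : ℕ) :
    (2 * (-2) ^ M + if 2 ∣ M then 4 * (-4) ^ (M / 2) else 0 : ℝ) =
      (if M % 4 = 0 then 6 else -2) * 2 ^ M := by
  by_cases h2 : 2 ∣ M
  · obtain ⟨k, rfl⟩ := h2
    rw [if_pos (dvd_mul_right _ _), Nat.mul_div_cancel_left _ (by norm_num), pow_mul, pow_mul]
    rcases Nat.even_or_odd k with hk | hk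
    · rw [if_pos (by obtain ⟨j, rfl⟩ := hk; omega), hk.neg_pow]
      norm_num
      ring
    · rw [if_neg (by obtain ⟨j, rfl⟩ := hk; omega), hk.neg_pow]
      norm_num
      ring
  · rw [if_neg h2, if_neg (by omega), (Nat.odd_iff.mpr (by omega : M % 2 = 1)).neg_pow]
    ring

theorem large_bound (hR : ∀ N : ℕ, ∑ d ∈ N.divisors, (d : ℤ) * ((-n d) ^ (N / d) + 1) = 0)
    (M : ℕ) (hM : 128 < M) : 2 * M * |(n (2 * M) : ℝ)| ≤ 8 * 2 ^ M := by
  induction M using Nat.strong_induction_on with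
  | _ M ih =>
    rcases le_or_gt M 500 with h | h
    · exact (tab_facts hR M (by omega) h).2.1 hM
    have h1 := main_est hR M h.le ih
    rw [main_value] at h1
    have hP : (0 : ℝ) < 2 ^ M := by positivity
    have h2 : 2 * M * |(n (2 * M) : ℝ)| = |2 * (M : ℝ) * n (2 * M)| := by
      rw [abs_mul, abs_of_nonneg (by positivity : (0 : ℝ) ≤ 2 * M)]
    rw [h2, abs_le]
    rw [abs_le] at h1
    split_ifs at h1 <;> constructor <;> linarith [h1.1, h1.2]

theorem signs (hR : ∀ N : ℕ, ∑ d ∈ N.divisors, (d : ℤ) * ((-n d) ^ (N / d) + 1) = 0)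
    (M : ℕ) (hM : 4 ≤ M) :
    (M % 4 = 0 → 0 < n (2 * M)) ∧ (M % 4 ≠ 0 → n (2 * M) < 0) := by
  rcases le_or_gt M 500 with h | h
  · exact ⟨(tab_facts hR M (by omega) h).2.2.1 hM, (tab_facts hR M (by omega) h).2.2.2 hM⟩
  have h1 := main_est hR M h.le (fun e _ he => large_bound hR e he)
  rw [main_value, abs_le] at h1
  have hP : (0 : ℝ) < 2 ^ M := by positivity
  have hM0 : (0 : ℝ) < 2 * M := by
    have : (0 : ℝ) < M := by exact_mod_cast (by omega : 0 < M)
    linarith
  constructor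
  · intro h4
    rw [if_pos h4] at h1
    have : (0 : ℝ) < 2 * M * n (2 * M) := by linarith [h1.1]
    exact_mod_cast ((mul_pos_iff_of_pos_left hM0).mp this : (0 : ℝ) < n (2 * M))
  · intro h4
    rw [if_neg h4] at h1
    have : 2 * (M : ℝ) * n (2 * M) < 0 := by linarith [h1.2]
    exact_mod_cast (neg_of_mul_neg_right this hM0.le : (n (2 * M) : ℝ) < 0)

end Pool.Agent.Lib.MP_f3871b_nt
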