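import Mathlib

/-! The power product expansion of the partition generating function: existence and the
logarithmic derivative recurrence. -/

namespace Pool.Agent.Lib.MP_f3871b_nt

open PowerSeries Finset
open scoped PowerSeries.WithPiTopology

/-- The operator `X d/dX`. -/
noncomputable def theta (f : ℤ⟦X⟧) : ℤ⟦X⟧ := X * derivative ℤ f

theorem coeff_theta (f : ℤ⟦X⟧) (m : ℕ) : coeff m (theta f) = (m : ℤ) * coeff m f := by
  unfold theta
  cases m with
  | zero => simp
  | succ m => rw [coeff_succ_X_mul, coeff_derivative]; push_cast; ring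

theorem theta_mul (f g : ℤ⟦X⟧) : theta (f * g) = f * theta g + g * theta f := by
  unfold theta
  rw [Derivation.leibniz]
  simp only [smul_eq_mul]
  ring

theorem theta_one : theta 1 = 0 := by
  unfold theta
  simp

/-- The logarithmic derivative of `1 + a X^k`. -/
noncomputable def logd (a : ℤ) (k : ℕ) : ℤ⟦X⟧ :=
  PowerSeries.mk fun m => if k ∣ m ∧ m ≠ 0 then -(k : ℤ) * (-a) ^ (m / k) else 0

theorem theta_factor (a : ℤ) (k : ℕ) (hk : 0 < k) :
    theta (1 + C a * X ^ k) = (1 + C a * X ^ k) * logd a k := by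
  ext m
  rw [coeff_theta, add_mul, one_mul, map_add, map_add, mul_assoc, coeff_C_mul, coeff_C_mul,
    coeff_X_pow_mul', coeff_X_pow, coeff_one]
  simp only [logd, coeff_mk]
  by_cases hm : m = 0
  · subst hm
    simp
  by_cases hd : k ∣ m
  · obtain ⟨j, rfl⟩ := hd
    have hj : j ≠ 0 := by rintro rfl; simp at hm
    obtain ⟨i, rfl⟩ := Nat.exists_eq_add_one_of_ne_zero hj
    have h1 : k ≤ k * (i + 1) := Nat.le_mul_of_pos_right _ (by omega)
    have h2 : k * (i + 1) - k = k * i := by rw [Nat.mul_succ]; omega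
    have h5 : k ∣ k * (i + 1) ∧ k * (i + 1) ≠ 0 := ⟨dvd_mul_right _ _, hm⟩
    rw [if_neg hm, if_pos h1, h2, if_pos h5, Nat.mul_div_cancel_left _ hk]
    by_cases hi : i = 0
    · subst hi
      simp
    · have h3 : k * (i + 1) ≠ k := by
        intro h
        have : k * i = 0 := by rw [Nat.mul_succ] at h; omega
        rcases Nat.mul_eq_zero.mp this with h | h <;> omega
      have h4 : k ∣ k * i ∧ k * i ≠ 0 := ⟨dvd_mul_right _ _, Nat.mul_ne_zero hk.ne' hi⟩
      rw [if_neg h3, if_pos h4, Nat.mul_div_cancel_left _ hk]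
      ring
  · have h3 : m ≠ k := by rintro rfl; exact hd dvd_rfl
    rw [if_neg hm, if_neg h3, if_neg (fun h => hd h.1)]
    by_cases h1 : k ≤ m
    · rw [if_pos h1, if_neg]
      · simp
      · rintro ⟨h, -⟩
        apply hd
        have := (Nat.dvd_add_right (dvd_refl k)).mpr h
        rwa [Nat.add_sub_cancel' h1] at this
    · rw [if_neg h1]; simp

theorem theta_prod (a : ℕ → ℤ) (s : Finset ℕ) :
    theta (∏ i ∈ s, (1 + C (a i) * X ^ (i + 1))) =
      (∏ i ∈ s, (1 + C (a i) * X ^ (i + 1))) * ∑ i ∈ s, logd (a i) (i + 1) := by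
  classical
  induction s using Finset.induction_on with
  | empty => simp [theta_one]
  | insert i s hi ih =>
    rw [prod_insert hi, sum_insert hi, theta_mul, ih, theta_factor _ (i + 1) (Nat.succ_pos i)]
    ring

theorem constantCoeff_prod (a : ℕ → ℤ) (s : Finset ℕ) :
    constantCoeff (∏ i ∈ s, (1 + C (a i) * X ^ (i + 1) : ℤ⟦X⟧)) = 1 := by
  rw [map_prod]
  apply prod_eq_one
  intro i _
  simp

/-- The generating function of the partition numbers. -/
noncomputable def partGF : ℤ⟦X⟧ := PowerSeries.mk fun m => (Fintype.card (Nat.Partition m) : ℤ)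

theorem hasProd_partGF :
    HasProd (fun i : ℕ => ∑' j : ℕ, (X ^ ((i + 1) * j) : ℤ⟦X⟧)) partGF := by
  have := Nat.Partition.hasProd_powerSeriesMk_card_restricted ℤ (fun _ => True)
  simpa [Nat.Partition.restricted, partGF] using this

theorem eventually_dvd {f : ℕ → ℤ⟦X⟧} {g : ℤ⟦X⟧} (h : HasProd f g) (N : ℕ) :
    ∀ᶠ s : Finset ℕ in Filter.atTop, X ^ N ∣ (∏ i ∈ s, f i) - g := by
  rw [HasProd, WithPiTopology.tendsto_iff_coeff_tendsto] at h
  simp only [X_pow_dvd_iff]
  have : ∀ m ∈ range N, ∀ᶠ s : Finset ℕ in Filter.atTop,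
      coeff m (∏ i ∈ s, f i) = coeff m g := by
    intro m _
    have h1 := h m
    rw [nhds_discrete, Filter.tendsto_pure] at h1
    simpa using h1
  have h2 := (Filter.eventually_all_finset (range N)).mpr this
  filter_upwards [h2] with s hs m hm
  rw [map_sub, hs m (mem_range.mpr hm), sub_self]

theorem geom_mul (i : ℕ) :
    (∑' j : ℕ, (X ^ ((i + 1) * j) : ℤ⟦X⟧)) * (1 + C (-1 : ℤ) * X ^ (i + 1)) = 1 := by
  have := WithPiTopology.tsum_pow_mul_one_sub_of_constantCoeff_eq_zero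
    (f := (X ^ (i + 1) : ℤ⟦X⟧)) (by simp)
  simp_rw [pow_mul]
  simpa [sub_eq_add_neg] using this

theorem recurrence {n : ℕ → ℤ}
    (h : HasProd (fun k : ℕ => (1 + C (n (k + 1)) * X ^ (k + 1) : ℤ⟦X⟧)) partGF)
    (N : ℕ) :
    ∑ d ∈ N.divisors, (d : ℤ) * ((-n d) ^ (N / d) + 1) = 0 := by
  classical
  obtain ⟨s, ⟨hs1, hs2⟩, hs3⟩ := (((eventually_dvd h (N + 1)).and
    (eventually_dvd hasProd_partGF (N + 1))).and (Filter.eventually_ge_atTop (range N))).exists
  set A : ℤ⟦X⟧ := ∏ i ∈ s, (1 + C (n (i + 1)) * X ^ (i + 1)) with hA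
  set B : ℤ⟦X⟧ := ∏ i ∈ s, ∑' j : ℕ, (X ^ ((i + 1) * j) : ℤ⟦X⟧) with hB
  set D : ℤ⟦X⟧ := ∏ i ∈ s, (1 + C ((fun _ => (-1 : ℤ)) i) * X ^ (i + 1)) with hD
  have hBD : B * D = 1 := by
    rw [hB, hD, ← prod_mul_distrib]
    exact prod_eq_one fun i _ => geom_mul i
  have hAD : X ^ (N + 1) ∣ A * D - 1 := by
    have : A * D - 1 = ((A - partGF) - (B - partGF)) * D := by
      rw [← hBD]; ring
    rw [this]
    exact Dvd.dvd.mul_right (dvd_sub hs1 hs2) _
  have hth : X ^ (N + 1) ∣ theta (A * D) := by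
    rw [X_pow_dvd_iff] at hAD ⊢
    intro m hm
    have := hAD m hm
    rw [map_sub, sub_eq_zero] at this
    rw [coeff_theta, this, coeff_one]
    split_ifs with h0
    · simp [h0]
    · simp
  set L : ℤ⟦X⟧ := ∑ i ∈ s, logd (n (i + 1)) (i + 1) + ∑ i ∈ s, logd (-1) (i + 1) with hL
  have hth2 : theta (A * D) = (A * D) * L := by
    rw [theta_mul, hA, hD, theta_prod (fun i => n (i + 1)), theta_prod (fun _ => -1), hL]
    ring
  have hL0 : X ^ (N + 1) ∣ L := by
    have : L = theta (A * D) - (A * D - 1) * L := by rw [hth2]; ring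
    rw [this]
    exact dvd_sub hth (Dvd.dvd.mul_right hAD _)
  rw [X_pow_dvd_iff] at hL0
  have hc := hL0 N (Nat.lt_succ_self N)
  rw [hL, ← sum_add_distrib, map_sum] at hc
  simp only [map_add, logd, coeff_mk] at hc
  have key : ∑ i ∈ s, ((if i + 1 ∣ N ∧ N ≠ 0 then -((i + 1 : ℕ) : ℤ) * (-n (i + 1)) ^ (N / (i + 1))
      else 0) + if i + 1 ∣ N ∧ N ≠ 0 then -((i + 1 : ℕ) : ℤ) * (- -1) ^ (N / (i + 1)) else 0) =
      -∑ d ∈ N.divisors, (d : ℤ) * ((-n d) ^ (N / d) + 1) := by
    rw [← sum_neg_distrib]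
    symm
    apply sum_of_injOn (fun d => d - 1)
    · intro x hx y hy hxy
      have hx' := Nat.pos_of_mem_divisors (mem_coe.mp hx)
      have hy' := Nat.pos_of_mem_divisors (mem_coe.mp hy)
      simp only at hxy
      omega
    · intro d hd
      apply hs3
      have h1 := Nat.pos_of_mem_divisors hd
      have h2 := Nat.divisor_le hd
      rw [mem_range]
      show d - 1 < N
      omega
    · intro i _ hi
      have : ¬ (i + 1 ∣ N ∧ N ≠ 0) := by
        intro hh
        apply hi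
        exact ⟨i + 1, by simpa using hh, by simp⟩
      rw [if_neg this, if_neg this, add_zero]
    · intro d hd
      have h1 := Nat.pos_of_mem_divisors hd
      have h2 : d - 1 + 1 = d := by omega
      rw [h2, if_pos (Nat.mem_divisors.mp hd), if_pos (Nat.mem_divisors.mp hd)]
      simp only [neg_neg, one_pow]
      ring
  rw [key, neg_eq_zero] at hc
  exact hc

theorem coeff_prod_stable (a : ℕ → ℤ) (d : ℕ) (s : Finset ℕ) (hs : range d ⊆ s) :
    coeff d (∏ i ∈ s, (1 + C (a i) * X ^ (i + 1) : ℤ⟦X⟧)) =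
      coeff d (∏ i ∈ range d, (1 + C (a i) * X ^ (i + 1) : ℤ⟦X⟧)) := by
  classical
  rw [← prod_sdiff hs]
  have h1 : ∀ t : Finset ℕ, (∀ i ∈ t, d ≤ i) →
      X ^ (d + 1) ∣ (∏ i ∈ t, (1 + C (a i) * X ^ (i + 1) : ℤ⟦X⟧)) - 1 := by
    intro t
    induction t using Finset.induction_on with
    | empty => simp
    | insert i t hi ih =>
      intro ht
      rw [prod_insert hi]
      have h2 := ih fun j hj => ht j (mem_insert_of_mem hj)
      have h3 : (X : ℤ⟦X⟧) ^ (d + 1) ∣ X ^ (i + 1) :=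
        pow_dvd_pow _ (by have := ht i (mem_insert_self _ _); omega)
      have : (1 + C (a i) * X ^ (i + 1)) * ∏ i ∈ t, (1 + C (a i) * X ^ (i + 1) : ℤ⟦X⟧) - 1 =
          (∏ i ∈ t, (1 + C (a i) * X ^ (i + 1) : ℤ⟦X⟧) - 1) +
            X ^ (i + 1) * (C (a i) * ∏ i ∈ t, (1 + C (a i) * X ^ (i + 1) : ℤ⟦X⟧)) := by ring
      rw [this]
      exact dvd_add h2 (Dvd.dvd.mul_right h3 _)
  have h2 := h1 (s \ range d) (by intro i hi; simpa using (mem_sdiff.mp hi).2)
  have h3 := Dvd.dvd.mul_right h2 (∏ i ∈ range d, (1 + C (a i) * X ^ (i + 1) : ℤ⟦X⟧))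
  rw [X_pow_dvd_iff] at h3
  have h4 := h3 d (Nat.lt_succ_self d)
  rwa [sub_mul, one_mul, map_sub, sub_eq_zero] at h4

/-- The sequence obtained by comparing coefficients (index shifted by one). -/
noncomputable def expo (i : ℕ) : ℤ :=
  coeff (i + 1) partGF -
    coeff (i + 1) (∏ j : Fin i, (1 + C (expo j) * X ^ ((j : ℕ) + 1) : ℤ⟦X⟧))
termination_by i
decreasing_by exact j.2

theorem exists_expansion : ∃ n : ℕ → ℤ,
    HasProd (fun k : ℕ => (1 + C (n (k + 1)) * X ^ (k + 1) : ℤ⟦X⟧)) partGF := by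
  refine ⟨fun k => expo (k - 1), ?_⟩
  rw [HasProd, WithPiTopology.tendsto_iff_coeff_tendsto]
  intro d
  refine tendsto_atTop_of_eventually_const (i₀ := range d) (fun s (hs : s ≥ range d) => ?_)
  simp only [Nat.add_sub_cancel]
  rw [coeff_prod_stable expo d s hs]
  cases d with
  | zero => simp [partGF]
  | succ i =>
    rw [prod_range_succ, mul_add, mul_one, map_add, ← mul_assoc, coeff_mul_X_pow',
      if_pos le_rfl, Nat.sub_self, coeff_zero_eq_constantCoeff_apply, map_mul, constantCoeff_prod,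
      constantCoeff_C, one_mul, expo, Fin.prod_univ_eq_prod_range
        (fun j => (1 + C (expo j) * X ^ (j + 1) : ℤ⟦X⟧)) i]
    ring

end Pool.Agent.Lib.MP_f3871b_nt
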